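import Pool.Agent.Q136.RH.Fin
import Pool.Agent.K7.H63.HO.CoreL

/-!
# Products of gamma values with commensurable arguments: bounded numbers of exceptions in short intervals

Local forms of `Pool.Agent.Q136.RH.few` and `Pool.Agent.Q136.RH.main` of the starting library.
-/

set_option autoImplicit false

open Filter Topology NumberField MvPolynomial

namespace Pool.Agent.K7.H63.RH

open Pool.Agent.Q136.LR Pool.Agent.Q136.RH

/-- `∑_j ∏_(i ≠ j) |Y_i|` -/
noncomputable def MG {n : ℕ} (Y : Fin n → Finset ℚ) : ℝ := ∑ j, ∏ i ∈ Finset.univ.erase j, ((Y i).card : ℝ)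

theorem prod_le_MG {n : ℕ} (Y : Fin n → Finset ℚ) (k : Fin n) :
    ∏ i ∈ Finset.univ.erase k, ((Y i).card : ℝ) ≤ MG Y :=
  Finset.single_le_sum (f := fun j => ∏ i ∈ Finset.univ.erase j, ((Y i).card : ℝ))
    (fun _ _ => Finset.prod_nonneg fun _ _ => Nat.cast_nonneg _) (Finset.mem_univ k)

theorem MG_nonneg {n : ℕ} (Y : Fin n → Finset ℚ) : 0 ≤ MG Y :=
  Finset.sum_nonneg fun _ _ => Finset.prod_nonneg fun _ _ => Nat.cast_nonneg _

theorem rat_loc {κ : Type} [Fintype κ] (n g d : ℕ) (f : κ → ℂ → ℂ) (a b : ℝ)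
    (han : ∀ i, ∀ t ∈ (fun x : ℝ => (x : ℂ)) '' Set.Icc a b, AnalyticAt ℂ (f i) t)
    (hind : ∀ t ∈ (fun x : ℝ => (x : ℂ)) '' Set.Icc a b, Y124.LocInd f t) (A δ : ℝ) (hδ : 0 < δ) :
    ∃ R C T₀ : ℝ, 0 ≤ C ∧ ∀ (ξ : Fin g → ℂ) (T : ℝ), T₀ ≤ T → ∀ Y : Fin n → Finset ℚ,
        (∀ j, ∀ x ∈ Y j, a ≤ (x : ℝ) ∧ (x : ℝ) ≤ b ∧ (x.den : ℝ) ≤ T) →
        (∀ j, ∀ x ∈ Y j, ∀ y ∈ Y j, |(x : ℝ) - y| ≤ T ^ (-δ)) →
        (({q : Fin n → ℚ | (∀ j, q j ∈ Y j) ∧ ∃ P : MvPolynomial (Fin n × κ) ℂ, (∀ x, P.degreeOf x ≤ d) ∧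
          (∀ s, ∃ c : Fin g → 𝓞 ℚ, (∀ i (φ : ℚ →+* ℂ), ‖φ (c i)‖ ≤ T ^ A) ∧
            P.coeff s = ∑ i, ξ i * (Rat.castHom ℂ) (c i)) ∧
          ∃ s₀, P.coeff s₀ ≠ 0 ∧ ‖MvPolynomial.aeval (fun x : Fin n × κ => f x.2 (((q x.1 : ℚ) : ℝ) : ℂ)) P‖ ≤
            T ^ (-R) * ‖P.coeff s₀‖}.ncard : ℕ) : ℝ) ≤ C * MG Y := by
  classical
  set c₀ : ℝ := |a| + |b| + 1 with hc₀
  have hc₀1 : 1 ≤ c₀ := by
    rw [hc₀]
    linarith [abs_nonneg a, abs_nonneg b]
  obtain ⟨B, C, T₀, hB, hC, hT₀, H⟩ := Pool.Agent.K7.H63.HO.coreL 1 n g d (fun _ => f)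
    ((fun x : ℝ => (x : ℂ)) '' Set.Icc a b) (isCompact_Icc.image Complex.continuous_ofReal)
    (fun _ y t ht => han y t ht) (fun _ t ht => hind t ht) |A| (δ / 2) (by positivity)
  refine ⟨2 * B, C, max T₀ c₀, hC, fun ξ T hT Y hY hYd => ?_⟩
  have hTT₀ : T₀ ≤ T := (le_max_left _ _).trans hT
  have hTc : c₀ ≤ T := (le_max_right _ _).trans hT
  have hT1 : 1 ≤ T := hc₀1.trans hTc
  have hTp : 0 < T := by linarith
  set T' : ℝ := c₀ * T with hT'
  have hTT' : T ≤ T' := le_mul_of_one_le_left hTp.le hc₀1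
  have hT'p : 0 < T' := by linarith
  set S : Set (Fin n → ℚ) := {q : Fin n → ℚ | (∀ j, q j ∈ Y j) ∧ ∃ P : MvPolynomial (Fin n × κ) ℂ,
    (∀ x, P.degreeOf x ≤ d) ∧
    (∀ s, ∃ c : Fin g → 𝓞 ℚ, (∀ i (φ : ℚ →+* ℂ), ‖φ (c i)‖ ≤ T ^ A) ∧
      P.coeff s = ∑ i, ξ i * (Rat.castHom ℂ) (c i)) ∧
    ∃ s₀, P.coeff s₀ ≠ 0 ∧ ‖MvPolynomial.aeval (fun x : Fin n × κ => f x.2 (((q x.1 : ℚ) : ℝ) : ℂ)) P‖ ≤
      T ^ (-(2 * B)) * ‖P.coeff s₀‖} with hS
  set E : Finset (Fin n → ℚ) := (Fintype.piFinset Y).filter fun q => q ∈ S with hE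
  have hES : S = (E : Set (Fin n → ℚ)) := by
    ext q
    rw [hE, Finset.coe_filter]
    exact ⟨fun h => ⟨Fintype.mem_piFinset.2 h.1, h⟩, fun h => h.2⟩
  rw [hES, Set.ncard_coe_finset]
  refine H ℚ (by simp) (Rat.castHom ℂ) ξ T' (hTT₀.trans hTT') Y ?_ ?_ E ?_
  · intro j x hx
    obtain ⟨h1, h2, h3⟩ := hY j x hx
    have h4 : (Rat.castHom ℂ) x = ((x : ℝ) : ℂ) := by simp
    have h5 : |(x : ℝ)| ≤ c₀ := by
      rw [hc₀, abs_le]
      constructor
      · linarith [neg_abs_le a, abs_nonneg b]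
      · linarith [le_abs_self b, abs_nonneg a]
    refine ⟨by rw [h4]; exact ⟨(x : ℝ), ⟨h1, h2⟩, rfl⟩, ?_⟩
    have h6 := Pool.Agent.K7.H63.HO.htLe_rat ℚ hc₀1 hT1 x h5 h3
    simpa using h6
  · intro j x hx x' hx'
    have h3 : (Rat.castHom ℂ) x - (Rat.castHom ℂ) x' = (((x : ℝ) - x' : ℝ) : ℂ) := by
      simp
    rw [h3, Complex.norm_real, Real.norm_eq_abs]
    exact (hYd j x hx x' hx').trans (Pool.Agent.K7.H63.HO.rad_le hc₀1 hTc hδ)
  · intro q hq
    rw [hE, Finset.mem_filter] at hq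
    obtain ⟨hqY, P, hPd, hPc, s₀, hs₀, hPv⟩ := hq.2
    refine ⟨hqY, P, hPd, fun s => ?_, s₀, hs₀, ?_⟩
    · obtain ⟨c, hc, hcs⟩ := hPc s
      refine ⟨c, fun i φ => (hc i φ).trans ?_, hcs⟩
      calc T ^ A ≤ T ^ |A| := Real.rpow_le_rpow_of_exponent_le hT1 (le_abs_self A)
        _ ≤ T' ^ |A| := Real.rpow_le_rpow hTp.le hTT' (abs_nonneg A)
    · have h1 : (fun x : Fin n × κ => f x.2 ((Rat.castHom ℂ) (q x.1))) =
          fun x : Fin n × κ => f x.2 (((q x.1 : ℚ) : ℝ) : ℂ) := by
        funext x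
        simp
      have h2 : T ^ (-(2 * B)) ≤ T' ^ (-B) := by
        have h5 : T' ≤ T * T := mul_le_mul_of_nonneg_right hTc hTp.le
        have h6 : T ^ (-(2 * B)) = (T * T) ^ (-B) := by
          rw [Real.mul_rpow hTp.le hTp.le, ← Real.rpow_add hTp]
          congr 1
          ring
        rw [h6]
        exact Real.rpow_le_rpow_of_nonpos hT'p h5 (by linarith)
      rw [h1]
      exact hPv.trans (mul_le_mul_of_nonneg_right h2 (norm_nonneg _))

theorem few_loc (n r B : ℕ) (c : Fin r → ℚ) (hc : ∀ i, c i ≠ 0) (x : Fin r → ℚ) (j : Fin r → Fin n) (k0 : Fin n)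
    (y0 : ℂ) (hy : ∑ i with j i = k0, sq (c i) (x i) y0 ≠ 0) (a b : ℝ)
    (hpole : ∀ i (t : ℝ), a ≤ t → t ≤ b → NP ((c i : ℂ) * t + x i))
    (l : Fin B → ℂ) (hl : ∀ (n : Fin B → ℤ) (k : ℚ), ∑ j, n j * l j = 2 * Real.pi * Complex.I * k → n = 0)
    (ρ : ℚ) (hρ : ρ ≠ 0) (d : ℕ) (A δ : ℝ) (hδ : 0 < δ) :
    ∃ C T₀ : ℝ, 0 ≤ C ∧ 1 ≤ T₀ ∧ ∀ κ0 : ℂ, κ0 ≠ 0 → ∀ T : ℝ, T₀ ≤ T → ∀ Y : Fin n → Finset ℚ,
      (∀ j, ∀ q ∈ Y j, a ≤ (q : ℝ) ∧ (q : ℝ) ≤ b ∧ (q.den : ℝ) ≤ T) →
      (∀ j, ∀ x ∈ Y j, ∀ y ∈ Y j, |(x : ℝ) - y| ≤ T ^ (-δ)) →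
      ∀ E : Finset (Fin n → ℚ), (∀ t ∈ E, (∀ k, t k ∈ Y k) ∧
        ∃ (α : ℂ) (P : MvPolynomial (Option (Fin n × Option (Fin B))) ℤ),
          (∏ i, Complex.Gamma ((c i : ℂ) * (((t (j i) : ℚ) : ℝ) : ℂ) + x i)) = α * κ0 ∧ P ≠ 0 ∧ (∀ v, P.degreeOf v ≤ d) ∧
          (∀ s, ‖((P.coeff s : ℤ) : ℂ)‖ ≤ T ^ A) ∧
          aeval (fun o : Option (Fin n × Option (Fin B)) => o.elim α fun v =>
            fb l (2 * Real.pi * Complex.I * ρ) v.2 (((t v.1 : ℚ) : ℝ) : ℂ)) P = 0) →
      (E.card : ℝ) ≤ C * MG Y := by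
  classical
  set ω : ℂ := 2 * Real.pi * Complex.I * ρ with hω
  set xc : Fin r → ℂ := fun i => (x i : ℂ) with hxc
  set cc : Fin r → ℂ := fun i => (c i : ℂ) with hcc
  set M : Fin 1 → Fin r → ℕ := fun _ i => if j i = k0 then 1 else 0 with hM
  have hind : ∀ m : Fin 1 → ℚ, (∀ y : ℂ, ∑ l, m l * ∑ i, (M l i : ℚ) * sq (c i) (xc i) y = 0) → m = 0 := by
    intro m hm
    have h1 := hm y0
    rw [Fin.sum_univ_one] at h1
    have h2 : ∑ i, (M 0 i : ℚ) * sq (c i) (xc i) y0 = ∑ i with j i = k0, sq (c i) (x i) y0 := by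
      rw [Finset.sum_filter]
      refine Finset.sum_congr rfl fun i _ => ?_
      simp only [hM, hxc]
      by_cases h : j i = k0
      · rw [if_pos h, if_pos h, Nat.cast_one, one_mul]
      · rw [if_neg h, if_neg h, Nat.cast_zero, zero_mul]
    rw [h2] at h1
    funext i
    rw [Subsingleton.elim i 0]
    exact (mul_eq_zero.1 h1).resolve_right hy
  have hdom : ∀ t ∈ (fun x : ℝ => (x : ℂ)) '' Set.Icc a b, t ∈ Dom cc xc := by
    rintro _ ⟨t, ht, rfl⟩ i
    exact hpole i t ht.1 ht.2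
  set f := fw cc xc M l ω with hf
  have hloc : ∀ t ∈ (fun x : ℝ => (x : ℂ)) '' Set.Icc a b, Y124.LocInd f t := fun t ht =>
    loc c hc xc M l ρ hρ hl hind t (hdom t ht)
  have han : ∀ y, ∀ t ∈ (fun x : ℝ => (x : ℂ)) '' Set.Icc a b, AnalyticAt ℂ (f y) t := fun y t ht =>
    fw_an _ _ _ _ _ y (hdom t ht)
  obtain ⟨R1, C1, T1, hC1, H1⟩ := rat_loc n 1 d (fun y => f (emb y)) a b (fun y => han _)
    (fun t ht => locInd_comp emb emb_inj f t (hloc t ht)) A δ hδ
  set g := Fintype.card (Fin (d + 1) × ((Fin n × Option (Fin B)) → Fin (d + 1))) with hg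
  let eg := Fintype.equivFin (Fin (d + 1) × ((Fin n × Option (Fin B)) → Fin (d + 1)))
  obtain ⟨R2, C2, T2, hC2, H2⟩ := rat_loc 1 g d f a b han hloc A δ hδ
  refine ⟨C1 + C2, max 1 (max T1 T2), add_nonneg hC1 hC2, le_max_left _ _, fun κ0 hκ T hT Y hY hYd E hE => ?_⟩
  have hT1 : 1 ≤ T := (le_max_left _ _).trans hT
  have hTT1 : T1 ≤ T := (le_max_left _ _).trans ((le_max_right _ _).trans hT)
  have hTT2 : T2 ≤ T := (le_max_right _ _).trans ((le_max_right _ _).trans hT)
  have hT0 : 0 < T := by linarith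
  have hTA : 0 ≤ T ^ A := Real.rpow_nonneg hT0.le _
  set S1 : Set (Fin n → ℚ) := {q | (∀ j, q j ∈ Y j) ∧ ∃ P : MvPolynomial (Fin n × Option (Fin B)) ℂ,
    (∀ x, P.degreeOf x ≤ d) ∧
    (∀ s, ∃ c : Fin 1 → 𝓞 ℚ, (∀ i (φ : ℚ →+* ℂ), ‖φ (c i)‖ ≤ T ^ A) ∧
      P.coeff s = ∑ i, (fun _ : Fin 1 => (1 : ℂ)) i * (Rat.castHom ℂ) (c i)) ∧
    ∃ s₀, P.coeff s₀ ≠ 0 ∧ ‖aeval (fun x : Fin n × Option (Fin B) => f (emb x.2) (((q x.1 : ℚ) : ℝ) : ℂ)) P‖ ≤
      T ^ (-R1) * ‖P.coeff s₀‖} with hS1
  have hS1c : (S1.ncard : ℝ) ≤ C1 * MG Y :=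
    H1 (fun _ => 1) T hTT1 Y hY hYd
  have hS1f : S1.Finite := by
    refine (Finset.finite_toSet (Fintype.piFinset Y)).subset ?_
    rintro q ⟨hq, -⟩
    rw [Finset.mem_coe, Fintype.mem_piFinset]
    exact hq
  -- the first part
  have hE1 : ((E.filter (· ∈ S1)).card : ℝ) ≤ C1 * MG Y := by
    refine le_trans ?_ hS1c
    rw [← Set.ncard_coe_finset]
    refine Nat.cast_le.2 (Set.ncard_le_ncard ?_ hS1f)
    intro q hq
    rw [Finset.coe_filter] at hq
    exact hq.2
  -- the second part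
  set E2 := E.filter (· ∉ S1) with hE2
  let res : (Fin n → ℚ) → ({k : Fin n // k ≠ k0} → ℚ) := fun t k => t k.1
  have hfib : ∀ ρ' ∈ E2.image res, (((E2.filter (fun t => res t = ρ')).card : ℕ) : ℝ) ≤ C2 := by
    intro ρ' hρ'
    obtain ⟨ts, hts, htsρ⟩ := Finset.mem_image.1 hρ'
    have htsE : ts ∈ E := (Finset.mem_filter.1 hts).1
    set η : ℂ := (∏ i with j i ≠ k0, Complex.Gamma ((c i : ℂ) * (((ts (j i) : ℚ) : ℝ) : ℂ) + x i)) / κ0 with hη
    have hη0 : η ≠ 0 := by
      refine div_ne_zero (Finset.prod_ne_zero_iff.2 fun i _ => Complex.Gamma_ne_zero ?_) hκ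
      have h1 := hY _ _ ((hE ts htsE).1 (j i))
      exact hpole i _ h1.1 h1.2.1
    set ν : Fin n × Option (Fin B) → ℂ := fun v => fb l ω v.2 (((ts v.1 : ℚ) : ℝ) : ℂ) with hν
    set w : Fin 1 × Option (Fin 1 ⊕ Fin B) → ℂ := fun v => if v.2 = some (Sum.inl 0) then η else 1 with hw
    let ξ : Fin g → ℂ := fun i => η ^ ((eg.symm i).1 : ℕ) * ∏ v, ν v ^ ((eg.symm i).2 v : ℕ)
    have H := H2 ξ T hTT2 (fun _ => Y k0) (fun _ => hY k0) (fun _ => hYd k0)
    have hMG1 : MG (fun _ : Fin 1 => Y k0) = 1 := by simp [MG]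
    rw [hMG1, mul_one] at H
    refine le_trans ?_ H
    rw [← Set.ncard_coe_finset]
    have hinj : Set.InjOn (fun (t : Fin n → ℚ) (_ : Fin 1) => t k0) (E2.filter (fun t => res t = ρ') : Set (Fin n → ℚ)) := by
      intro t ht t' ht' h
      rw [Finset.mem_coe, Finset.mem_filter] at ht ht'
      funext k
      by_cases hk : k = k0
      · rw [hk]
        exact congrFun h 0
      · have h1 := congrFun (ht.2.trans ht'.2.symm) ⟨k, hk⟩
        exact h1
    rw [← hinj.ncard_image]
    refine Nat.cast_le.2 (Set.ncard_le_ncard ?_ ?_)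
    · rintro _ ⟨t, ht, rfl⟩
      rw [Finset.mem_coe, Finset.mem_filter] at ht
      obtain ⟨ht2, htρ⟩ := ht
      have htE : t ∈ E := (Finset.mem_filter.1 ht2).1
      have htS : t ∉ S1 := (Finset.mem_filter.1 ht2).2
      have hagree : ∀ k, k ≠ k0 → t k = ts k := by
        intro k hk
        exact congrFun (htρ.trans htsρ.symm) ⟨k, hk⟩
      obtain ⟨htX, α, P, hprod, hP0, hPd, hPh, hPv⟩ := hE t htE
      refine ⟨fun _ => htX k0, ?_⟩
      set Q := rename (rn k0) P with hQ
      have hQ0 : Q ≠ 0 := fun h => hP0 (rename_injective _ (rn_inj k0) (by rw [← hQ, h, map_zero]))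
      have hQc : ∀ s, coeff s Q ≠ 0 → ∃ u, Finsupp.mapDomain (rn k0) u = s ∧ coeff u P = coeff s Q ∧ coeff u P ≠ 0 := by
        intro s hs
        obtain ⟨u, hu, hu'⟩ := coeff_rename_ne_zero _ _ _ hs
        refine ⟨u, hu, ?_, hu'⟩
        rw [← hu, hQ, coeff_rename_mapDomain _ (rn_inj k0)]
      have hQd : ∀ s, coeff s Q ≠ 0 → ∀ v, s v ≤ d := by
        intro s hs v
        obtain ⟨u, hu, -, hu'⟩ := hQc s hs
        rw [← hu]
        by_cases hv : v ∈ Set.range (rn (B := B) k0)
        · obtain ⟨v', rfl⟩ := hv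
          rw [Finsupp.mapDomain_apply (rn_inj k0)]
          exact (monomial_le_degreeOf v' (mem_support_iff.2 hu')).trans (hPd v')
        · rw [Finsupp.mapDomain_of_notMem_range _ _ hv]
          exact Nat.zero_le _
      have hQh : ∀ s, ‖((coeff s Q : ℤ) : ℂ)‖ ≤ T ^ A := by
        intro s
        by_cases hs : coeff s Q = 0
        · rw [hs]
          simpa using hTA
        · obtain ⟨u, -, hu, -⟩ := hQc s hs
          rw [← hu]
          exact hPh u
      refine ⟨froz ν w Q, ?_, ?_, ?_⟩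
      · intro v
        rw [degreeOf_le_iff]
        intro μ hμ
        rw [mem_support_iff, coeff_froz] at hμ
        obtain ⟨s, hs, -⟩ := Finset.exists_ne_zero_of_sum_ne_zero (right_ne_zero_of_mul hμ)
        rw [Finset.mem_filter, mem_support_iff] at hs
        rw [← hs.2, el_apply]
        exact hQd s hs.1 _
      · intro μ
        refine ⟨fun i => if ((eg.symm i).1 : ℕ) = μ (0, some (Sum.inl 0)) then
          ((coeff (rb μ fun k => ((eg.symm i).2 k : ℕ)) Q : ℤ) : 𝓞 ℚ) else 0, ?_, ?_⟩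
        · intro i φ
          beta_reduce
          split_ifs
          · rw [norm_int]
            exact hQh _
          · simpa using hTA
        · rw [coeff_box ν w Q μ d hQd]
          have h1 : ∏ i, w i ^ μ i = η ^ μ (0, some (Sum.inl 0)) := by
            rw [Fintype.prod_eq_single ((0 : Fin 1), (some (Sum.inl 0) : Option (Fin 1 ⊕ Fin B)))]
            · rw [hw]
              simp
            · intro v hv
              have : v.2 ≠ some (Sum.inl 0) := fun h => hv (Prod.ext (Subsingleton.elim _ _) h)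
              rw [hw]
              simp [this]
          rw [h1, ← Equiv.sum_comp eg]
          simp only [ξ, Equiv.symm_apply_apply]
          rw [Fintype.sum_prod_type, Finset.sum_comm, Finset.mul_sum]
          refine Finset.sum_congr rfl fun φ _ => ?_
          by_cases hμ : μ (0, some (Sum.inl 0)) < d + 1
          · rw [Fintype.sum_eq_single (⟨μ (0, some (Sum.inl 0)), hμ⟩ : Fin (d + 1))]
            · simp only [if_true]
              have : (Rat.castHom ℂ) (((coeff (rb μ fun k => (φ k : ℕ)) Q : ℤ) : 𝓞 ℚ) : ℚ) =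
                  ((coeff (rb μ fun k => (φ k : ℕ)) Q : ℤ) : ℂ) := by
                have h2 : (((coeff (rb μ fun k => (φ k : ℕ)) Q : ℤ) : 𝓞 ℚ) : ℚ) = ((coeff (rb μ fun k => (φ k : ℕ)) Q : ℤ) : ℚ) := by
                  show algebraMap (𝓞 ℚ) ℚ _ = _
                  rw [map_intCast]
                rw [h2]
                simp
              rw [this]
              ring
            · intro e he
              have : ((e : Fin (d + 1)) : ℕ) ≠ μ (0, some (Sum.inl 0)) := fun h => he (Fin.ext h)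
              rw [if_neg this]
              simp
          · have h2 : coeff (rb μ fun k => (φ k : ℕ)) Q = 0 := by
              by_contra h3
              have h4 := hQd _ h3 (Sum.inl (0, some (Sum.inl 0)))
              have h5 : (rb μ fun k => (φ k : ℕ)) (Sum.inl (0, some (Sum.inl 0))) = μ (0, some (Sum.inl 0)) := rfl
              rw [h5] at h4
              omega
            rw [h2, Int.cast_zero, zero_mul, mul_zero]
            symm
            refine Finset.sum_eq_zero fun e _ => ?_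
            have h3 : (if ((e : Fin (d + 1)) : ℕ) = μ (0, some (Sum.inl 0)) then
                ((coeff (rb μ fun k => (φ k : ℕ)) Q : ℤ) : 𝓞 ℚ) else 0) = 0 := by
              rw [h2, Int.cast_zero, ite_self]
            rw [h3]
            simp
      · -- a nonzero coefficient
        obtain ⟨s0, hs0⟩ := ne_zero_iff.1 hQ0
        refine ⟨el s0, ?_, ?_⟩
        · rw [cq_eval]
          refine mul_ne_zero (Finset.prod_ne_zero_iff.2 fun i _ => pow_ne_zero _ ?_) ?_
          · rw [hw]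
            dsimp only
            split_ifs
            · exact hη0
            · exact one_ne_zero
          · intro h0
            apply htS
            refine ⟨htX, MvPolynomial.map (Int.castRingHom ℂ) (cq Q (el s0)), ?_, ?_, er s0, ?_, ?_⟩
            · intro v
              rw [degreeOf_le_iff]
              intro φ hφ
              rw [mem_support_iff, coeff_map, cq_coeff] at hφ
              have h1 : coeff (rb (el s0) φ) Q ≠ 0 := by
                intro h2
                apply hφ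
                rw [h2, map_zero]
              exact hQd _ h1 (Sum.inr v)
            · intro φ
              refine ⟨fun _ => ((coeff (rb (el s0) φ) Q : ℤ) : 𝓞 ℚ), ?_, ?_⟩
              · intro i ψ
                rw [norm_int]
                exact hQh _
              · rw [Fin.sum_univ_one, coeff_map, cq_coeff, one_mul]
                have h2 : (((coeff (rb (el s0) φ) Q : ℤ) : 𝓞 ℚ) : ℚ) = ((coeff (rb (el s0) φ) Q : ℤ) : ℚ) := by
                  show algebraMap (𝓞 ℚ) ℚ _ = _
                  rw [map_intCast]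
                rw [h2]
                simp
            · rw [coeff_map, cq_coeff, rb_el_er]
              simpa using hs0
            · -- the value vanishes
              have h1 : aeval (fun x : Fin n × Option (Fin B) => f (emb x.2) (((t x.1 : ℚ) : ℝ) : ℂ))
                  (MvPolynomial.map (Int.castRingHom ℂ) (cq Q (el s0))) = aeval ν (cq Q (el s0)) := by
                rw [aeval_def, eval₂_map, aeval_def]
                have h2 : ((algebraMap ℂ ℂ).comp (Int.castRingHom ℂ)) = algebraMap ℤ ℂ := RingHom.ext_int _ _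
                rw [h2]
                -- only frozen variables with v.1 ≠ k0 occur
                refine eval₂_congr _ _ _ ?_
                intro v φ hv hφ
                rw [cq_coeff] at hφ
                obtain ⟨u, hu, -, -⟩ := hQc _ hφ
                have h3 : (rb (el s0) φ) (Sum.inr v) ≠ 0 := by
                  have : (rb (el s0) φ) (Sum.inr v) = φ v := rfl
                  rw [this]
                  exact Finsupp.mem_support_iff.1 hv
                have h4 : (Sum.inr v) ∈ Set.range (rn (B := B) k0) := by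
                  by_contra h5
                  rw [← hu, Finsupp.mapDomain_of_notMem_range _ _ h5] at h3
                  exact h3 rfl
                obtain ⟨v', hv'⟩ := h4
                have h5 : v.1 ≠ k0 := by
                  rcases v' with _ | v'
                  · simp [rn] at hv'
                  · simp only [rn] at hv'
                    split_ifs at hv' with h6
                    rw [← Sum.inr_injective hv']
                    exact h6
                show f (emb v.2) _ = fb l ω v.2 _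
                rw [hf, fb_emb, hagree _ h5]
              rw [h1, h0, norm_zero]
              positivity
        · -- the value of the frozen polynomial
          have hval : aeval (fun v : Fin 1 × Option (Fin 1 ⊕ Fin B) => f v.2 (((t k0 : ℚ) : ℝ) : ℂ)) (froz ν w Q) = 0 := by
            rw [froz_eval, hQ, aeval_rename, ← hPv]
            congr 2
            funext o
            rcases o with _ | v
            · show w (0, some (Sum.inl 0)) * f (some (Sum.inl 0)) (((t k0 : ℚ) : ℝ) : ℂ) = α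
              have h1 : w (0, some (Sum.inl 0)) = η := by
                rw [hw]
                simp
              have h2 : f (some (Sum.inl 0)) (((t k0 : ℚ) : ℝ) : ℂ) =
                  ∏ i with j i = k0, Complex.Gamma ((c i : ℂ) * (((t (j i) : ℚ) : ℝ) : ℂ) + x i) := by
                show ∏ i, Complex.Gamma (cc i * (((t k0 : ℚ) : ℝ) : ℂ) + xc i) ^ M 0 i = _
                rw [Finset.prod_filter]
                refine Finset.prod_congr rfl fun i _ => ?_
                rw [hM]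
                dsimp only
                split_ifs with h3
                · rw [pow_one, h3]
                · rw [pow_zero]
              have h3 : (∏ i with j i ≠ k0, Complex.Gamma ((c i : ℂ) * (((ts (j i) : ℚ) : ℝ) : ℂ) + x i)) =
                  ∏ i with j i ≠ k0, Complex.Gamma ((c i : ℂ) * (((t (j i) : ℚ) : ℝ) : ℂ) + x i) := by
                refine Finset.prod_congr rfl fun i hi => ?_
                rw [Finset.mem_filter] at hi
                rw [hagree _ hi.2]
              have h4 := Finset.prod_filter_mul_prod_filter_not Finset.univ (fun i => j i = k0)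
                (fun i => Complex.Gamma ((c i : ℂ) * (((t (j i) : ℚ) : ℝ) : ℂ) + x i))
              rw [h1, h2, hη, h3, div_mul_eq_mul_div, div_eq_iff hκ, ← hprod, ← h4]
              ring
            · show (Sum.elim (fun i => w i * f i.2 (((t k0 : ℚ) : ℝ) : ℂ)) ν ∘ rn k0) (some v) = _
              rw [Function.comp_apply]
              simp only [rn]
              split_ifs with h1
              · have h2 : w (0, emb v.2) = 1 := by
                  rw [hw]
                  have : emb v.2 ≠ some (Sum.inl 0) := by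
                    intro h
                    rcases v with ⟨_, _ | _⟩ <;> simp [emb] at h
                  simp [this]
                rw [Sum.elim_inl, h2, one_mul]
                show f (emb v.2) _ = fb l ω v.2 _
                rw [hf, fb_emb, ← h1]
              · rw [Sum.elim_inr]
                show fb l ω v.2 _ = fb l ω v.2 _
                rw [hagree _ h1]
          rw [hval, norm_zero]
          positivity
    · refine (Finset.finite_toSet (Fintype.piFinset fun _ : Fin 1 => Y k0)).subset ?_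
      rintro q ⟨hq, -⟩
      rw [Finset.mem_coe, Fintype.mem_piFinset]
      exact hq
  have hE2c : (E2.card : ℝ) ≤ C2 * MG Y := by
    have h1 : E2.card = ∑ ρ' ∈ E2.image res, (E2.filter (fun t => res t = ρ')).card :=
      Finset.card_eq_sum_card_image res E2
    rw [h1]
    push_cast
    refine (Finset.sum_le_sum hfib).trans ?_
    rw [Finset.sum_const, nsmul_eq_mul, mul_comm]
    refine mul_le_mul_of_nonneg_left ?_ hC2
    have h2 : (E2.image res).card ≤ ∏ k : {k : Fin n // k ≠ k0}, (Y k.1).card := by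
      have h3 : E2.image res ⊆ Fintype.piFinset fun k : {k : Fin n // k ≠ k0} => Y k.1 := by
        intro ρ' hρ'
        obtain ⟨ts, hts, rfl⟩ := Finset.mem_image.1 hρ'
        rw [Fintype.mem_piFinset]
        intro k
        exact (hE ts (Finset.mem_filter.1 hts).1).1 k.1
      refine (Finset.card_le_card h3).trans ?_
      rw [Fintype.card_piFinset]
    have h4 : ∏ k : {k : Fin n // k ≠ k0}, (Y k.1).card = ∏ k ∈ Finset.univ.erase k0, (Y k).card := by
      rw [← Finset.prod_subtype (Finset.univ.erase k0) (fun k => by simp) (fun k => (Y k).card)]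
    rw [h4] at h2
    refine le_trans ?_ (prod_le_MG Y k0)
    exact_mod_cast h2
  have h3 : E.card = (E.filter (· ∈ S1)).card + E2.card := by
    rw [hE2]
    exact (Finset.card_filter_add_card_filter_not (· ∈ S1)).symm
  rw [h3]
  push_cast
  calc ((E.filter (· ∈ S1)).card : ℝ) + (E2.card : ℝ) ≤ C1 * MG Y + C2 * MG Y := add_le_add hE1 hE2c
    _ = (C1 + C2) * MG Y := by ring

/-- few members of a family with an integral argument -/
theorem few_int_loc (n r : ℕ) (c : Fin r → ℚ) (hc : ∀ i, c i ≠ 0) (x : Fin r → ℚ) (j : Fin r → Fin n) (a b : ℝ) :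
    ∃ C : ℝ, 0 ≤ C ∧ ∀ Y : Fin n → Finset ℚ, (∀ j, ∀ q ∈ Y j, a ≤ (q : ℝ) ∧ (q : ℝ) ≤ b) →
      ∀ E : Finset (Fin n → ℚ), (∀ t ∈ E, (∀ k, t k ∈ Y k) ∧ ∃ i, ∃ z : ℤ, c i * t (j i) + x i = z) →
      (E.card : ℝ) ≤ C * MG Y := by
  classical
  have hK : ∀ i, ∃ K : ℕ, ∀ X : Finset ℚ, (∀ q ∈ X, a ≤ (q : ℝ) ∧ (q : ℝ) ≤ b) →
      (X.filter fun q => ∃ z : ℤ, c i * q + x i = z).card ≤ K := by
    intro i
    obtain ⟨m, hm⟩ := exists_nat_gt (|(c i : ℝ)| * max |a| |b| + |(x i : ℝ)|)
    refine ⟨(Finset.Icc (-(m : ℤ)) m).card, fun X hX => ?_⟩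
    refine Finset.card_le_card_of_injOn (fun q => ⌊c i * q + x i⌋) ?_ ?_
    · intro q hq
      rw [Finset.mem_coe, Finset.mem_filter] at hq
      obtain ⟨hq, z, hz⟩ := hq
      have h1 : |(z : ℝ)| < m := by
        have h2 : (z : ℝ) = c i * q + x i := by exact_mod_cast hz.symm
        rw [h2]
        have h3 : |(q : ℝ)| ≤ max |a| |b| := by
          rw [abs_le]
          have h4 := hX q hq
          constructor
          · have := neg_abs_le a
            have h5 := le_max_left |a| |b|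
            linarith [h4.1]
          · have := le_abs_self b
            have h5 := le_max_right |a| |b|
            linarith [h4.2]
        calc |(c i : ℝ) * q + x i| ≤ |(c i : ℝ) * q| + |(x i : ℝ)| := abs_add_le _ _
          _ = |(c i : ℝ)| * |(q : ℝ)| + |(x i : ℝ)| := by rw [abs_mul]
          _ ≤ |(c i : ℝ)| * max |a| |b| + |(x i : ℝ)| := by
            have := mul_le_mul_of_nonneg_left h3 (abs_nonneg (c i : ℝ))
            linarith
          _ < m := hm
      rw [Finset.mem_coe, Finset.mem_Icc]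
      beta_reduce
      rw [hz, Int.floor_intCast]
      have h2 : |z| < (m : ℤ) := by exact_mod_cast h1
      rw [abs_lt] at h2
      exact ⟨h2.1.le, h2.2.le⟩
    · intro q hq q' hq' h
      rw [Finset.mem_coe, Finset.mem_filter] at hq hq'
      obtain ⟨-, z, hz⟩ := hq
      obtain ⟨-, z', hz'⟩ := hq'
      simp only [hz, hz', Int.floor_intCast] at h
      rw [h] at hz
      have h1 : c i * q = c i * q' := by linarith
      exact mul_left_cancel₀ (hc i) h1
  choose K hK using hK
  refine ⟨∑ i, (K i : ℝ), Finset.sum_nonneg fun i _ => Nat.cast_nonneg _, fun Y hY E hE => ?_⟩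
  have h1 : E ⊆ Finset.univ.biUnion fun i : Fin r => Fintype.piFinset
      (Function.update Y (j i) ((Y (j i)).filter fun q => ∃ z : ℤ, c i * q + x i = z)) := by
    intro t ht
    obtain ⟨h2, i, z, hz⟩ := hE t ht
    rw [Finset.mem_biUnion]
    refine ⟨i, Finset.mem_univ _, ?_⟩
    rw [Fintype.mem_piFinset]
    intro k
    by_cases hk : k = j i
    · subst hk
      rw [Function.update_self, Finset.mem_filter]
      exact ⟨h2 _, z, hz⟩
    · rw [Function.update_of_ne hk]
      exact h2 k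
  have h2 : E.card ≤ ∑ i, K i * ∏ k ∈ Finset.univ.erase (j i), (Y k).card := by
    refine (Finset.card_le_card h1).trans (Finset.card_biUnion_le.trans (Finset.sum_le_sum fun i _ => ?_))
    rw [Fintype.card_piFinset, ← Finset.mul_prod_erase Finset.univ _ (Finset.mem_univ (j i)), Function.update_self]
    refine Nat.mul_le_mul (hK i (Y (j i)) (hY (j i))) (le_of_eq ?_)
    refine Finset.prod_congr rfl fun k hk => ?_
    rw [Function.update_of_ne (Finset.ne_of_mem_erase hk)]
  have h3 : (E.card : ℝ) ≤ ∑ i, (K i : ℝ) * ∏ k ∈ Finset.univ.erase (j i), ((Y k).card : ℝ) := by exact_mod_cast h2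
  refine h3.trans ?_
  rw [Finset.sum_mul]
  exact Finset.sum_le_sum fun i _ => mul_le_mul_of_nonneg_left (prod_le_MG Y (j i)) (Nat.cast_nonneg _)

theorem main_loc (n r : ℕ) (c : Fin r → ℚ) (hc : ∀ i, c i ≠ 0) (x : Fin r → ℚ) (j : Fin r → Fin n) (a b : ℝ)
    (hpole : ∀ i (s : ℝ), a ≤ s → s ≤ b → ∀ k : ℕ, (c i : ℝ) * s + x i ≠ -k)
    (N B d : ℕ) (hN : 0 < N) (A δ : ℝ) (hδ : 0 < δ) :
    ∃ C T₀ : ℝ, ∀ β : ℂ, β ≠ 0 → ∀ T : ℝ, T₀ ≤ T → ∀ Y : Fin n → Finset ℚ,
      (∀ j, ∀ q ∈ Y j, a ≤ (q : ℝ) ∧ (q : ℝ) ≤ b ∧ (q.den : ℝ) ≤ T) →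
      (∀ j, ∀ x ∈ Y j, ∀ y ∈ Y j, |(x : ℝ) - y| ≤ T ^ (-δ)) →
      ∀ E : Finset (Fin n → ℚ), (∀ t ∈ E, (∀ k, t k ∈ Y k) ∧
        ¬ (∀ D : ℕ, 0 < D → (∀ i, ∃ k : ℤ, D * (c i * t (j i) + x i) = k) → ∀ m : ℕ, m.Coprime D →
          ∑ i, Int.fract (m * (c i * t (j i) + x i)) = r / 2) ∧
        ∃ (α : ℂ) (P : MvPolynomial (Option (Fin n × Option (Fin B))) ℤ),
          ((∏ i, Real.Gamma ((c i * t (j i) + x i : ℚ) : ℝ) : ℝ) : ℂ) = α * β ∧
          P ≠ 0 ∧ (∀ v, P.degreeOf v ≤ d) ∧ (∀ s, |((P.coeff s : ℤ) : ℝ)| ≤ T ^ A) ∧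
          aeval (fun o : Option (Fin n × Option (Fin B)) => o.elim α fun v => v.2.elim
            (Complex.exp (2 * Real.pi * Complex.I * (t v.1 / N)))
            fun b => (((Nat.nth Nat.Prime b : ℝ) ^ ((t v.1 : ℝ) / N) : ℝ) : ℂ)) P = 0) →
      (E.card : ℝ) ≤ C * MG Y := by
  classical
  by_cases hA : ∀ (k : Fin n) (y : ℂ), ∑ i with j i = k, sq (c i) (x i) y = 0
  · obtain ⟨C, hC, H⟩ := few_int_loc n r c hc x j a b
    refine ⟨C, 1, fun β _ T hT Y hY _ E hE => ?_⟩
    refine H Y (fun j q hq => ⟨(hY j q hq).1, (hY j q hq).2.1⟩) E (by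
      intro t ht
      obtain ⟨h1, h2, -⟩ := hE t ht
      refine ⟨h1, ?_⟩
      by_contra h3
      push Not at h3
      apply h2
      intro D hD hDa m hm
      have h4 : ∑ i, saw (m * (c i * t (j i) + x i)) = 0 := by
        rw [← Finset.sum_fiberwise Finset.univ j]
        refine Finset.sum_eq_zero fun k _ => ?_
        have h5 := ident (Finset.univ.filter fun i => j i = k) c hc x (hA k) (t k) (by
          intro i hi z
          rw [Finset.mem_filter] at hi
          rw [← hi.2]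
          exact h3 i z) D hD (by
          intro i hi
          rw [Finset.mem_filter] at hi
          rw [← hi.2]
          exact hDa i) m hm
        rw [← h5]
        refine Finset.sum_congr rfl fun i hi => ?_
        rw [Finset.mem_filter] at hi
        rw [hi.2]
      unfold saw at h4
      rw [Finset.sum_sub_distrib, Finset.sum_const, Finset.card_univ, Fintype.card_fin, nsmul_eq_mul] at h4
      linarith)
  · push Not at hA
    obtain ⟨k0, y0, hy⟩ := hA
    have hNC : (N : ℂ) ≠ 0 := Nat.cast_ne_zero.2 hN.ne'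
    obtain ⟨C, T₀, -, -, H⟩ := few_loc n r B c hc x j k0 y0 hy a b (by
      intro i t h1 h2 k hk
      refine hpole i t h1 h2 k ?_
      exact_mod_cast hk) (fun b => Real.log (Nat.nth Nat.Prime b) / N) (by
      intro m k hm
      refine log_primes (fun b : Fin B => Nat.nth Nat.Prime b) (fun b => Nat.prime_nth_prime _)
        (fun b b' h => Fin.ext (Nat.nth_injective Nat.infinite_setOfPred_prime h)) m ?_
      have h1 := congrArg Complex.re hm
      have h2 : (2 * Real.pi * Complex.I * k : ℂ).re = 0 := by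
        have : (2 * Real.pi * Complex.I * k : ℂ) = ((2 * Real.pi * k : ℝ) : ℂ) * Complex.I := by
          push_cast
          ring
        rw [this, Complex.re_ofReal_mul]
        simp
      have h3 : (∑ b, (m b : ℂ) * ((Real.log (Nat.nth Nat.Prime b) : ℂ) / N)) =
          (((∑ b, (m b : ℝ) * Real.log (Nat.nth Nat.Prime b)) / N : ℝ) : ℂ) := by
        push_cast
        rw [Finset.sum_div]
        exact Finset.sum_congr rfl fun b _ => by ring
      rw [h2, h3, Complex.ofReal_re] at h1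
      have h4 : (N : ℝ) ≠ 0 := Nat.cast_ne_zero.2 hN.ne'
      exact (div_eq_zero_iff.1 h1).resolve_right h4) (1 / N) (by
      have h4 : (N : ℚ) ≠ 0 := Nat.cast_ne_zero.2 hN.ne'
      exact one_div_ne_zero h4) d A δ hδ
    refine ⟨C, T₀, fun β hβ T hT Y hY hYd E hE => H β hβ T hT Y hY hYd E fun t ht => ?_⟩
    obtain ⟨h1, -, α, P, h2, h3, h4, h5, h6⟩ := hE t ht
    refine ⟨h1, α, P, ?_, h3, h4, ?_, ?_⟩
    · rw [← h2, Complex.ofReal_prod]
      refine Finset.prod_congr rfl fun i _ => ?_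
      rw [← Complex.Gamma_ofReal]
      congr 1
      push_cast
      rfl
    · intro s
      have := h5 s
      rw [Complex.norm_intCast]
      exact this
    · rw [← h6]
      congr 2
      funext o
      rcases o with _ | ⟨k, _ | b⟩
      · rfl
      · show Complex.exp (2 * Real.pi * Complex.I * ((1 / N : ℚ) : ℂ) * (((t k : ℚ) : ℝ) : ℂ)) =
          Complex.exp (2 * Real.pi * Complex.I * (t k / N))
        congr 1
        push_cast
        ring
      · show Complex.exp (((Real.log (Nat.nth Nat.Prime b) : ℝ) : ℂ) / N * (((t k : ℚ) : ℝ) : ℂ)) =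
          (((Nat.nth Nat.Prime b : ℝ) ^ ((t k : ℝ) / N) : ℝ) : ℂ)
        rw [Real.rpow_def_of_pos (Nat.cast_pos.2 (Nat.prime_nth_prime _).pos), Complex.ofReal_exp]
        congr 1
        push_cast
        ring

end Pool.Agent.K7.H63.RH
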